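import Mathlib

/-!
# MP_62401a_nt: numbers `n` with `4 σ̃(n) = n` and with `5 σ̃(n) = n`

`altSigma` is the multiplicative function `σ̃` of the problem: `σ̃(p ^ r) = p ^ r - p ^ (r - 1) + ⋯ +
(-1) ^ r`.  The question is whether some `n` satisfies `k σ̃(n) = n` for some `k ≥ 4`.  The answer is
yes: for `k = 4` we can take

`n = 2^13 3^8 5 7^2 11 13 19 23 37 43^2 127 139 = 993803899780063855042560`,

and for `k = 5` a number with 210 digits and 46 distinct prime factors.  Both were found by a computer search: the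
exponents of 2, 3, 5, 7 are fixed, the exponents of the larger primes are computed as the fixed point of
`a_q = v_q(k σ̃(n))`, and one checks the exponents of the four small primes at the end.
-/

namespace Pool.Agent.Results.MP_62401a_nt.FourAndFivePerfect

/-- The value of `σ̃` at the prime power `p ^ r`: `p ^ r - p ^ (r - 1) + ⋯ + (-1) ^ r`. -/
def altPow (p r : ℕ) : ℤ := ∑ j ∈ Finset.range (r + 1), (-1) ^ j * (p : ℤ) ^ (r - j)

/-- The alternating sum-of-divisors function `σ̃`: the product of `altPow p r` over the prime powers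
`p ^ r` exactly dividing `n`. -/
def altSigma (n : ℕ) : ℤ := n.factorization.prod altPow

theorem altPow_succ (p r : ℕ) : altPow p (r + 1) = (p : ℤ) ^ (r + 1) - altPow p r := by
  unfold altPow
  rw [Finset.sum_range_succ']
  have : ∑ k ∈ Finset.range (r + 1), (-1 : ℤ) ^ (k + 1) * (p : ℤ) ^ (r + 1 - (k + 1)) =
      -∑ k ∈ Finset.range (r + 1), (-1 : ℤ) ^ k * (p : ℤ) ^ (r - k) := by
    rw [← Finset.sum_neg_distrib]
    refine Finset.sum_congr rfl fun k _ => ?_
    rw [Nat.add_sub_add_right, pow_succ]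
    ring
  rw [this]
  simp
  ring

theorem altPow_closed (p r : ℕ) :
    ((p : ℤ) + 1) * altPow p r = (p : ℤ) ^ (r + 1) + (-1) ^ r := by
  induction r with
  | zero => simp [altPow]
  | succ r ih =>
    rw [altPow_succ, mul_sub, ih]
    ring

theorem altSigma_mul {m n : ℕ} (h : m.Coprime n) : altSigma (m * n) = altSigma m * altSigma n := by
  unfold altSigma
  rw [Nat.factorization_mul_of_coprime h, Finsupp.prod_add_index_of_disjoint]
  simpa [Nat.support_factorization] using h.disjoint_primeFactors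

theorem altSigma_prime_pow {p : ℕ} (hp : p.Prime) (r : ℕ) : altSigma (p ^ r) = altPow p r := by
  unfold altSigma
  rw [hp.factorization_pow, Finsupp.prod_single_index]
  simp [altPow]

/-- The number with the given list of primes and exponents. -/
def num (l : List (ℕ × ℕ)) : ℕ := (l.map fun x => x.1 ^ x.2).prod

theorem coprime_num (l : List (ℕ × ℕ)) (hl : ∀ x ∈ l, x.1.Prime) (p : ℕ) (hp : p.Prime)
    (h : p ∉ l.map Prod.fst) (a : ℕ) : Nat.Coprime (p ^ a) (num l) := by
  induction l with
  | nil => simp [num]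
  | cons x l ih =>
    have h1 : num (x :: l) = x.1 ^ x.2 * num l := by simp [num]
    rw [h1]
    have h2 : p ≠ x.1 ∧ p ∉ l.map Prod.fst := by simpa using h
    refine Nat.Coprime.mul_right ?_ (ih (fun y hy => hl y (by simp [hy])) h2.2)
    exact Nat.Coprime.pow _ _ ((Nat.coprime_primes hp (hl x (by simp))).2 h2.1)

theorem altSigma_num (l : List (ℕ × ℕ)) (hl : ∀ x ∈ l, x.1.Prime)
    (hd : (l.map Prod.fst).Nodup) :
    (l.map fun x => ((x.1 : ℤ) + 1)).prod * altSigma (num l) =
      (l.map fun x => (x.1 : ℤ) ^ (x.2 + 1) + (-1) ^ x.2).prod := by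
  induction l with
  | nil => simp [num, altSigma]
  | cons x l ih =>
    have h1 : num (x :: l) = x.1 ^ x.2 * num l := by simp [num]
    have h2 : x.1 ∉ l.map Prod.fst ∧ (l.map Prod.fst).Nodup := by
      simpa only [List.map_cons, List.nodup_cons] using hd
    have hx : x.1.Prime := hl x (by simp)
    have hl' : ∀ y ∈ l, y.1.Prime := fun y hy => hl y (by simp [hy])
    rw [h1, altSigma_mul (coprime_num l hl' x.1 hx h2.1 x.2), altSigma_prime_pow hx]
    simp only [List.map_cons, List.prod_cons]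
    rw [← ih hl' h2.2, ← altPow_closed]
    ring

theorem perfect_of_list (k : ℤ) (l : List (ℕ × ℕ)) (hl : ∀ x ∈ l, x.1.Prime)
    (hd : (l.map Prod.fst).Nodup)
    (h : k * (l.map fun x => (x.1 : ℤ) ^ (x.2 + 1) + (-1) ^ x.2).prod =
      (l.map fun x => ((x.1 : ℤ) + 1)).prod * (num l : ℤ)) :
    ∃ n : ℕ, 0 < n ∧ k * altSigma n = n := by
  refine ⟨num l, ?_, ?_⟩
  · refine Nat.pos_of_ne_zero fun h0 => ?_
    unfold num at h0
    rw [List.prod_eq_zero_iff] at h0
    obtain ⟨x, hx, hx0⟩ := List.mem_map.1 h0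
    exact (pow_pos (hl x hx).pos x.2).ne' hx0
  · have h1 := altSigma_num l hl hd
    have h3 : (l.map fun x => ((x.1 : ℤ) + 1)).prod ≠ 0 := by
      intro h0
      rw [List.prod_eq_zero_iff] at h0
      obtain ⟨x, _, hx0⟩ := List.mem_map.1 h0
      have : (0 : ℤ) ≤ (x.1 : ℤ) := Int.natCast_nonneg _
      omega
    have h4 : (l.map fun x => ((x.1 : ℤ) + 1)).prod * (k * altSigma (num l)) =
        (l.map fun x => ((x.1 : ℤ) + 1)).prod * (num l : ℤ) := by
      rw [← h, ← h1]
      ring
    exact mul_left_cancel₀ h3 h4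

/-- The prime powers of the number for `k = 4`. -/
def list4 : List (ℕ × ℕ) :=
  [(2, 13), (3, 8), (5, 1), (7, 2), (11, 1), (13, 1), (19, 1), (23, 1), (37, 1), (43, 2),
   (127, 1), (139, 1)]

/-- The prime powers of the number for `k = 5`. -/
def list5 : List (ℕ × ℕ) :=
  [(2, 69), (3, 33), (5, 21), (7, 12), (11, 7), (13, 4), (17, 5), (19, 1), (23, 3), (29, 1),
   (31, 2), (37, 1), (41, 2), (43, 1), (47, 1), (53, 2), (61, 3), (67, 1), (71, 2), (73, 2),
   (103, 1), (127, 1), (241, 1), (281, 1), (307, 2), (367, 1), (439, 1), (521, 1), (547, 1),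
   (751, 1), (919, 1), (1021, 1), (1231, 1), (1657, 1), (1861, 1), (1871, 1), (2411, 1),
   (2539, 1), (5281, 1), (5987, 1), (7321, 1), (34511, 1), (86171, 1), (122921, 1), (12207031, 1),
   (228511817, 1)]

/-- There are positive integers `n` with `4 σ̃(n) = n` and with `5 σ̃(n) = n`. -/
theorem result : (∃ n : ℕ, 0 < n ∧ 4 * altSigma n = n) ∧ (∃ n : ℕ, 0 < n ∧ 5 * altSigma n = n) := by
  refine ⟨perfect_of_list 4 list4 ?_ ?_ ?_, perfect_of_list 5 list5 ?_ ?_ ?_⟩
  · intro x hx
    simp only [list4, List.mem_cons, List.not_mem_nil, or_false] at hx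
    rcases hx with rfl | rfl | rfl | rfl | rfl | rfl | rfl | rfl | rfl | rfl | rfl | rfl <;> norm_num
  · decide
  · norm_num [list4, num]
  · intro x hx
    simp only [list5, List.mem_cons, List.not_mem_nil, or_false] at hx
    rcases hx with rfl | rfl | rfl | rfl | rfl | rfl | rfl | rfl | rfl | rfl | rfl | rfl | rfl | rfl | rfl | rfl | rfl | rfl | rfl | rfl | rfl | rfl | rfl | rfl | rfl | rfl | rfl | rfl | rfl | rfl | rfl | rfl | rfl | rfl | rfl | rfl | rfl | rfl | rfl | rfl | rfl | rfl | rfl | rfl | rfl | rfl <;> norm_num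
  · decide
  · norm_num [list5, num]

end Pool.Agent.Results.MP_62401a_nt.FourAndFivePerfect
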